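import Pool.Agent.H10.Rec3

namespace Pool.Agent.Results.MP_3ace2b_pr.NotAR
open MeasureTheory Pool.Agent.H10.Rec

/-- The free group of rank two is not algebraically recurrent. -/
theorem result [MeasurableSpace (FreeGroup (Fin 2))] [DiscreteMeasurableSpace (FreeGroup (Fin 2))] :
    ∃ μ : PMF (FreeGroup (Fin 2)), (∀ g, μ g⁻¹ = μ g) ∧ Subgroup.closure μ.support = ⊤ ∧
      ¬ ∀ᵐ ω ∂(Measure.infinitePi fun _ : ℕ => μ.toMeasure), Subsemigroup.closure
        (Set.range fun k : ℕ => ((List.range (1 + k)).map ω).prod) = ⊤ := by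
  have : Countable (FreeGroup (Fin 2)) := Quot.mk_surjective.countable
  refine wr (FreeGroup.lift ![⟨0, 1⟩, ⟨1, 0⟩]) (.of 0) (.of 1) (by simp) (by simp) ?_
  rw [← FreeGroup.closure_range_of]
  congr 1; ext; simp [Fin.exists_fin_two, eq_comm]

end Pool.Agent.Results.MP_3ace2b_pr.NotAR
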